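import Mathlib

set_option autoImplicit false

namespace Pool.Agent.Results.MP_70387e_co.NonRegular

/-- Two cells attack each other: `y - x = t • v` with `t ≠ 0` and `v ∈ {-1,0,1}³ \ {0}`. -/
def Attack (x y : ℤ × ℤ × ℤ) : Prop :=
  ∃ t a b c : ℤ, t ≠ 0 ∧ |a| ≤ 1 ∧ |b| ≤ 1 ∧ |c| ≤ 1 ∧ (a, b, c) ≠ (0, 0, 0) ∧ y - x = t • (a, b, c)

/-- A solution of the `(n,3)`-queens problem: `n²` pairwise non-attacking cells of `[n]³`. -/
def Solution (n : ℕ) (Q : Finset (ℤ × ℤ × ℤ)) : Prop :=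
  (∀ x ∈ Q, x.1 ∈ Finset.Icc (1 : ℤ) n ∧ x.2.1 ∈ Finset.Icc (1 : ℤ) n ∧ x.2.2 ∈ Finset.Icc (1 : ℤ) n) ∧
    Q.card = n ^ 2 ∧ ∀ x ∈ Q, ∀ y ∈ Q, x ≠ y → ¬ Attack x y

/-- Regular (linear) solutions: the third coordinate is `a i + b j + c` modulo `n`. -/
def Regular (n : ℕ) (Q : Finset (ℤ × ℤ × ℤ)) : Prop :=
  ∃ a b c : ℤ, ∀ x ∈ Q, x.2.2 ≡ a * x.1 + b * x.2.1 + c [ZMOD n]

def g (i j : ℤ) : ℤ := if i % 11 = 0 ∧ j % 11 = 0 then 11 else 0

def f (i j : ℤ) : ℤ := (2 * i + 4 * j + g i j) % 121 + 1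

noncomputable def Q (N : ℤ) : Finset (ℤ × ℤ × ℤ) :=
  (Finset.Icc (1 : ℤ) N ×ˢ Finset.Icc (1 : ℤ) N).image fun p => (p.1, p.2, f p.1 p.2)

theorem mem_Q (N : ℤ) (x : ℤ × ℤ × ℤ) : x ∈ Q N ↔
    ∃ i j, (1 ≤ i ∧ i ≤ N) ∧ (1 ≤ j ∧ j ≤ N) ∧ (i, j, f i j) = x := by
  simp only [Q, Finset.mem_image, Finset.mem_product, Finset.mem_Icc, Prod.exists, and_assoc]

theorem card_Q (N : ℕ) : (Q N).card = N ^ 2 := by
  rw [Q, Finset.card_image_of_injective]
  · simp [sq]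
  · intro p q h
    simp only [Prod.mk.injEq] at h
    exact Prod.ext h.1 h.2.1

theorem key (u t d : ℤ) (hu : u ≠ 0) (hu' : |u| ≤ 7) (ht : t ≠ 0) (ht' : |t| ≤ 120)
    (h : (121 : ℤ) ∣ t * u + 11 * d) (hd : (11 : ℤ) ∣ t → d = 0) : False := by
  have hp : Prime (11 : ℤ) := Int.prime_iff_natAbs_prime.2 (by norm_num)
  have hnu : ¬ (11 : ℤ) ∣ u := fun h => by
    have := Int.le_of_dvd (abs_pos.2 hu) ((dvd_abs _ _).2 h); omega
  have h1 : (11 : ℤ) ∣ t * u := by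
    have : (11 : ℤ) ∣ t * u + 11 * d := Dvd.dvd.trans (by norm_num) h
    exact (Int.dvd_add_left (Dvd.intro d rfl)).1 (by simpa [add_comm] using this) |> fun h => h
  have h2 : (11 : ℤ) ∣ t := (hp.dvd_or_dvd h1).resolve_right hnu
  rw [hd h2, mul_zero, add_zero] at h
  have h3 : (11 : ℤ) ^ 2 ∣ t := hp.pow_dvd_of_dvd_mul_right 2 hnu (by simpa using h)
  have := Int.le_of_dvd (abs_pos.2 ht) ((dvd_abs _ _).2 h3)
  omega

theorem main (N : ℕ) (hN : (N : ℤ) = 121) : Solution N (Q N) ∧ ¬ Regular N (Q N) := by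
  refine ⟨⟨?_, card_Q N, ?_⟩, ?_⟩
  · intro x hx
    obtain ⟨i, j, hi, hj, rfl⟩ := (mem_Q _ _).1 hx
    simp only [Finset.mem_Icc, f]; omega
  · intro x hx y hy hxy ⟨t, a, b, c, ht, ha, hb, hc, hv, h⟩
    obtain ⟨i, j, hi, hj, rfl⟩ := (mem_Q _ _).1 hx
    obtain ⟨i', j', hi', hj', rfl⟩ := (mem_Q _ _).1 hy
    simp only [Prod.mk_sub_mk, Prod.smul_mk, smul_eq_mul, Prod.mk.injEq] at h
    obtain ⟨h1, h2, h3⟩ := h
    have hab : a ≠ 0 ∨ b ≠ 0 := by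
      by_contra hn
      push Not at hn
      apply hxy
      have e1 : i' = i := by rw [hn.1] at h1; omega
      have e2 : j' = j := by rw [hn.2] at h2; omega
      rw [e1, e2]
    rw [abs_le] at ha hb hc
    have ht' : |t| ≤ 120 := by
      rw [abs_le]
      rcases hab with h | h
      · have : a = 1 ∨ a = -1 := by omega
        rcases this with rfl | rfl <;> omega
      · have : b = 1 ∨ b = -1 := by omega
        rcases this with rfl | rfl <;> omega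
    refine key (2 * a + 4 * b - c) t ((g i' j' - g i j) / 11) (by omega) (by rw [abs_le]; omega) ht ht'
      ?_ ?_
    · have e : t * (2 * a + 4 * b - c) = 2 * (t * a) + 4 * (t * b) - t * c := by ring
      rw [e, ← h1, ← h2, ← h3]
      unfold f g
      split_ifs <;> omega
    · rintro ⟨s, rfl⟩
      have e1 : i' = i + 11 * (s * a) := by linarith
      have e2 : j' = j + 11 * (s * b) := by linarith
      have : g i' j' = g i j := by
        unfold g; rw [e1, e2]; simp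
      rw [this]; simp
  · rintro ⟨a, b, c, h⟩
    have h1 := h _ ((mem_Q _ _).2 ⟨9, 11, by omega, by omega, rfl⟩)
    have h2 := h _ ((mem_Q _ _).2 ⟨10, 11, by omega, by omega, rfl⟩)
    have h3 := h _ ((mem_Q _ _).2 ⟨11, 11, by omega, by omega, rfl⟩)
    rw [hN] at h1 h2 h3
    norm_num [f, g, Int.ModEq] at h1 h2 h3
    omega

theorem result : ∃ n : ℕ, 1 ≤ n ∧ ∃ S : Finset (ℤ × ℤ × ℤ), Solution n S ∧ ¬ Regular n S :=
  ⟨121, by norm_num, _, main 121 (by norm_num)⟩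

end Pool.Agent.Results.MP_70387e_co.NonRegular
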